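import Pool.Agent.Lib.MP_a57f33_nt.AverageMain

/-!
For `ψ ∈ dm₀`, the duality `(ψ | w) = (ψ | τ(w))` holds after summation over all words `w` of a
given length with at most four prescribed letters.
-/

namespace Pool.Agent.Results.MP_a57f33_nt.AverageDuality

open Pool.Agent.MP_a57f33_nt

/-- Duality on average: for `ψ ∈ dm₀`, a length `N`, a set `P` of at most four positions and
prescribed letters `a` at these positions, the sums of `(ψ | w)` and of `(ψ | τ(w))` over all
words `w` of length `N` with these letters agree. -/
theorem result (ψ : QX) (hψ : ψ ∈ dm0) (N : ℕ) (P : Finset (Fin N)) (hP : P.card ≤ 4)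
    (a : Fin N → Bool) :
    ∑ w : Fin N → Bool with ∀ i ∈ P, w i = a i, coeff ψ (List.ofFn w) =
      ∑ w : Fin N → Bool with ∀ i ∈ P, w i = a i, coeff ψ (dualWord (List.ofFn w)) :=
  average_duality (dm0_subset_DS1 hψ) N P hP a

end Pool.Agent.Results.MP_a57f33_nt.AverageDuality
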