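import Pool.Agent.Lib.MP_a57f33_nt.BZ.Fin5

/-!
The Brown-Zagier relation (Zagier's formula for `ζ(2, …, 2, 3, 2, …, 2)` modulo products) holds
for every element of `dm₀`, so it follows from the regularised double shuffle relations.
-/

namespace Pool.Agent.MP_a57f33_nt.Old.BrownZagier

open Pool.Agent.MP_a57f33_nt

/-- The word `(x₀x₁)^j` (`false` is `x₀`, `true` is `x₁`). -/
def blocks (j : ℕ) : List Bool := (List.replicate j [false, true]).flatten

/-- For `ψ ∈ dm₀`, `a, b ≥ 0` and `r = a + b + 1`, the coefficient of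
`(x₀x₁)^b x₀x₀x₁ (x₀x₁)^a` in `ψ` is
`2(-1)^r [C(2r, 2a+2) - (1 - 2^(-2r)) C(2r, 2b+1)]` times the coefficient of `x₀^(2r) x₁`. -/
theorem result : ∀ ψ ∈ dm0, ∀ a b r : ℕ, r = a + b + 1 →
    coeff ψ (blocks b ++ [false, false, true] ++ blocks a) =
      2 * (-1) ^ r * ((Nat.choose (2 * r) (2 * a + 2) : ℚ) -
          (1 - 1 / 2 ^ (2 * r)) * (Nat.choose (2 * r) (2 * b + 1) : ℚ)) *
        coeff ψ (List.replicate (2 * r) false ++ [true]) := by
  intro ψ h a b r hr
  subst hr
  have h1 := BZ.brown_zagier h a b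
  have e : BZ.hw a b = blocks b ++ [false, false, true] ++ blocks a := by
    have e1 : BZ.bl (a + 1) = [false, true] ++ blocks a := by
      unfold BZ.bl blocks
      rw [List.replicate_succ, List.flatten_cons]
    unfold BZ.hw
    rw [e1]
    simp [BZ.bl, blocks]
  rw [← e]
  exact h1

end Pool.Agent.MP_a57f33_nt.Old.BrownZagier
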