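import Pool.Agent.Lib.MP_a57f33_nt.CycLie

/-!
The cyclic sum formula of Hoffman and Ohno follows from the regularised double shuffle relations;
in particular it holds, in its form modulo products, on `dm₀`.
-/

namespace Pool.Agent.MP_a57f33_nt.Old.CyclicSum

open Pool.Agent.MP_a57f33_nt Pool.Agent.MP_a57f33_nt.Cyc

/-- Let `Z` be a function on the words in `x₀, x₁` with values in a commutative `ℚ`-algebra which
satisfies the regularised double shuffle relations. Then `∑_a sgn(a) Z(x₀ C_a x₁) = 0` for every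
cyclic word `C` which contains both letters; and `∑_a sgn(a) (ψ | x₀ C_a x₁) = 0` for every
`ψ ∈ dm₀`. -/
theorem result :
    (∀ (k : Type) [CommRing k] [Algebra ℚ k] (γ : ℕ → k) (Z : List Bool → k), RegDS γ Z →
      ∀ C : List Bool, false ∈ C → true ∈ C → cyc Z C = 0) ∧
    ∀ ψ ∈ dm0, ∀ C : List Bool, false ∈ C → true ∈ C → cyc (coeff ψ) C = 0 :=
  ⟨fun _ _ _ _ _ h => h.cyc, fun _ h => cyc_DS1 (dm0_subset_DS1 h)⟩

end Pool.Agent.MP_a57f33_nt.Old.CyclicSum
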