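import Pool.Agent.Lib.MP_a57f33_nt.DepthOne

/-!
Elements of `dm₀` and, more generally, Lie elements satisfying all regularised stuffle
relations with one factor of depth one, keep this property under the duality
anti-automorphism `τ`.
-/

namespace Pool.Agent.MP_a57f33_nt.Old.DualStuffle

open Pool.Agent.MP_a57f33_nt

/-- `dm₀ ⊆ DS1`, and `DS1` is stable under the duality `τ`. -/
theorem result : dm0 ⊆ DS1 ∧ ∀ ψ ∈ DS1, dual ψ ∈ DS1 :=
  ⟨dm0_subset_DS1, fun _ h => dual_mem_DS1 h⟩

end Pool.Agent.MP_a57f33_nt.Old.DualStuffle
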