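import Pool.Agent.Lib.MP_a57f33_nt.Hexagon

/-!
On `dm₀` the duality relation, stability under duality, the three-cycle (hexagon) relation, the
cocycle relation and Drinfeld's relation `[b, ψ'(a, b)] + [c, ψ'(a, c)] = 0` are equivalent, where
`ψ'(u, v) = ψ(u, -v)`, `a = x₀`, `b = -x₁`, `c = x₁ - x₀`.
-/

namespace Pool.Agent.MP_a57f33_nt.Old.DualityHexagon

open Pool.Agent.MP_a57f33_nt

/-- The letters `x₀` and `x₁` of `ℚ⟨X⟩`. -/
noncomputable def x (b : Bool) : QX := FreeAlgebra.ι ℚ b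

/-- The substitution `ψ ↦ ψ(a, b)`: the algebra endomorphism of `ℚ⟨X⟩` with `x₀ ↦ a`,
`x₁ ↦ b`. -/
noncomputable def subst (a b : QX) : QX →ₐ[ℚ] QX :=
  FreeAlgebra.lift ℚ fun c : Bool => if c then b else a

/-- The commutator. -/
noncomputable def br (a b : QX) : QX := a * b - b * a

/-- `ψ'(u, v) = ψ(u, -v)`. -/
noncomputable def pr (ψ u v : QX) : QX := subst u (-v) ψ

/-- `a = x₀`, `b = -x₁`, `c = x₁ - x₀`; `a + b + c = 0`. -/
noncomputable def a : QX := x false

/-- See `a`. -/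
noncomputable def b : QX := -x true

/-- See `a`. -/
noncomputable def c : QX := x true - x false

private lemma subst_id (ψ : QX) : subst (x false) (x true) ψ = ψ := by
  have : subst (x false) (x true) = AlgHom.id ℚ QX := by
    apply FreeAlgebra.hom_ext
    funext d
    cases d <;> simp [subst, x]
  rw [this]; rfl

private lemma pr_ab (ψ : QX) : pr ψ a b = ψ := by
  rw [pr, a, b, neg_neg, subst_id]

private lemma pr_ac (ψ : QX) : pr ψ a c = ttX ψ := by
  rw [pr, a, c, neg_sub]; rfl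

private lemma pr_cb (ψ : QX) : pr ψ c b = shiftX ψ := by
  rw [pr, c, b, neg_neg]; rfl

private lemma pr_bc (ψ : QX) : pr ψ b c = shiftX (rhX ψ) := by
  have : subst b (-c) = shiftX.comp rhX := by
    apply FreeAlgebra.hom_ext
    funext d
    cases d
    · change subst b (-c) (FreeAlgebra.ι ℚ false) = shiftX (rhX X0)
      rw [rhX_X0, map_neg, shiftX_X1]; simp [subst, b, x]
    · change subst b (-c) (FreeAlgebra.ι ℚ true) = shiftX (rhX X1)
      rw [rhX_X1, map_neg, shiftX_X0]; simp [subst, c, x]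
  rw [pr, this]; rfl

private lemma pr_ca (ψ : QX) : pr ψ c a = ttX (rhX ψ) := by
  have : subst c (-a) = ttX.comp rhX := by
    apply FreeAlgebra.hom_ext
    funext d
    cases d
    · change subst c (-a) (FreeAlgebra.ι ℚ false) = ttX (rhX X0)
      rw [rhX_X0, map_neg, ttX_X1]; simp [subst, c, x]
    · change subst c (-a) (FreeAlgebra.ι ℚ true) = ttX (rhX X1)
      rw [rhX_X1, map_neg, ttX_X0]; simp [subst, a, x]
  rw [pr, this]; rfl

/-- For every `ψ ∈ dm₀` the following are equivalent: `τψ = ψ`; `τψ ∈ dm₀`; the three-cycle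
relation; the cocycle relation; Drinfeld's relation `[b, ψ'(a, b)] + [c, ψ'(a, c)] = 0`. -/
theorem result : ∀ ψ ∈ dm0, List.TFAE
    [dual ψ = ψ,
      dual ψ ∈ dm0,
      pr ψ a b + pr ψ b c + pr ψ c a = 0,
      pr ψ a b = pr ψ a c + pr ψ c b,
      br b (pr ψ a b) + br c (pr ψ a c) = 0] := by
  intro ψ h
  rw [pr_ab, pr_ac, pr_cb, pr_bc, pr_ca]
  have h4 : (shiftX ψ + ttX ψ = ψ) ↔ (ψ = ttX ψ + shiftX ψ) := by
    rw [add_comm]; exact eq_comm
  have h5 : Four ψ ↔ br b ψ + br c (ttX ψ) = 0 := by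
    have : br b ψ + br c (ttX ψ) =
        -(X1 * ψ - ψ * X1) + ((X1 - X0) * ttX ψ - ttX ψ * (X1 - X0)) := by
      simp only [br, b, c, x]; noncomm_ring
    rw [this]; rfl
  rw [← h4, ← h5]
  exact hexagon_tfae h

end Pool.Agent.MP_a57f33_nt.Old.DualityHexagon
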