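import Pool.Agent.Lib.MP_a57f33_nt.Tri.Main

/-!
The duality relation holds modulo the cube `I³` of the ideal `I = ([x₀, x₁])` for every solution
of the regularised double shuffle relations; on `dm₀` the duality relation and the three-cycle
(hexagon) relation hold modulo `I³`.
-/

namespace Pool.Agent.MP_a57f33_nt.Old.DualityModCube

open Pool.Agent.MP_a57f33_nt Pool.Agent.MP_a57f33_nt.Cyc Pool.Agent.MP_a57f33_nt.Tri

/-- The letters `x₀` and `x₁` of `ℚ⟨X⟩`. -/
noncomputable def x (b : Bool) : QX := FreeAlgebra.ι ℚ b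

/-- The substitution `ψ ↦ ψ(u, v)`: the algebra endomorphism of `ℚ⟨X⟩` with `x₀ ↦ u`,
`x₁ ↦ v`. -/
noncomputable def subst (u v : QX) : QX →ₐ[ℚ] QX :=
  FreeAlgebra.lift ℚ fun c : Bool => if c then v else u

/-- `ψ'(u, v) = ψ(u, -v)`. -/
noncomputable def pr (ψ u v : QX) : QX := subst u (-v) ψ

/-- `a = x₀`, `b = -x₁`, `c = x₁ - x₀`; `a + b + c = 0`. -/
noncomputable def a : QX := x false

/-- See `a`. -/
noncomputable def b : QX := -x true

/-- See `a`. -/
noncomputable def c : QX := x true - x false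

private lemma subst_id (ψ : QX) : subst (x false) (x true) ψ = ψ := by
  have : subst (x false) (x true) = AlgHom.id ℚ QX := by
    apply FreeAlgebra.hom_ext
    funext d
    cases d <;> simp [subst, x]
  rw [this]; rfl

private lemma pr_ab (ψ : QX) : pr ψ a b = ψ := by
  rw [pr, a, b, neg_neg, subst_id]

private lemma pr_bc (ψ : QX) : pr ψ b c = shiftX (rhX ψ) := by
  have : subst b (-c) = shiftX.comp rhX := by
    apply FreeAlgebra.hom_ext
    funext d
    cases d
    · change subst b (-c) (FreeAlgebra.ι ℚ false) = shiftX (rhX X0)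
      rw [rhX_X0, map_neg, shiftX_X1]; simp [subst, b, x]
    · change subst b (-c) (FreeAlgebra.ι ℚ true) = shiftX (rhX X1)
      rw [rhX_X1, map_neg, shiftX_X0]; simp [subst, c, x]
  rw [pr, this]; rfl

private lemma pr_ca (ψ : QX) : pr ψ c a = ttX (rhX ψ) := by
  have : subst c (-a) = ttX.comp rhX := by
    apply FreeAlgebra.hom_ext
    funext d
    cases d
    · change subst c (-a) (FreeAlgebra.ι ℚ false) = ttX (rhX X0)
      rw [rhX_X0, map_neg, ttX_X1]; simp [subst, c, x]
    · change subst c (-a) (FreeAlgebra.ι ℚ true) = ttX (rhX X1)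
      rw [rhX_X1, map_neg, ttX_X0]; simp [subst, a, x]
  rw [pr, this]; rfl

/-- Let `Z` be a function on the words in `x₀, x₁` with values in a commutative `ℚ`-algebra which
satisfies the regularised double shuffle relations. Then the generating series of `Z` and of
`Z ∘ τ` agree modulo `I³`, in every degree. For every `ψ ∈ dm₀` one has `τψ = ψ` modulo `I³` and
`ψ'(a, b) + ψ'(b, c) + ψ'(c, a) = 0` modulo `I³`. -/
theorem result :
    (∀ (k : Type) [CommRing k] [Algebra ℚ k] (γ : ℕ → k) (Z : List Bool → k), RegDS γ Z →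
      ∀ n : ℕ, part n Z - part n (fun w => Z (dualWord w)) ∈ comCube k) ∧
    ∀ ψ ∈ dm0, ψ - dual ψ ∈ comCube ℚ ∧
      pr ψ a b + pr ψ b c + pr ψ c a ∈ comCube ℚ := by
  refine ⟨fun k _ _ γ Z h n => group_cube h n, fun ψ h => ⟨lie_cube (dm0_subset_DS1 h), ?_⟩⟩
  rw [pr_ab, pr_bc, pr_ca]
  exact hexagon_cube h

end Pool.Agent.MP_a57f33_nt.Old.DualityModCube
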