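import Pool.Agent.Lib.MP_a57f33_nt.RD.Main

/-!
Duality for the elements of `dm₀` at all pairs of matrices whose difference is a scalar plus a
matrix of rank two; duality and the hexagon relation at all 3×3 matrices.
-/

namespace Pool.Agent.MP_a57f33_nt.Old.RankTwoDuality

open Pool.Agent.MP_a57f33_nt Pool.Agent.MP_a57f33_nt.RD
open Matrix

/-- Rank two duality on `dm₀`. -/
theorem result (ψ : QX) (h : ψ ∈ dm0) (R : Type) [CommRing R] [Algebra ℚ R] :
    (∀ (n : ℕ) (X Y : Matrix (Fin n) (Fin n) R) (c : R) (U : Matrix (Fin n) (Fin 2) R)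
      (V : Matrix (Fin 2) (Fin n) R), X - Y = c • (1 : Matrix (Fin n) (Fin n) R) + U * V →
        evalM X Y ψ = evalM X Y (dual ψ)) ∧
    (∀ X Y : Matrix (Fin 3) (Fin 3) R, evalM X Y ψ = evalM X Y (dual ψ)) ∧
    ∀ A B : Matrix (Fin 3) (Fin 3) R,
      evalM A (-B) ψ + evalM B (A + B) ψ + evalM (-A - B) (-A) ψ = 0 :=
  rd_main ψ h R

end Pool.Agent.MP_a57f33_nt.Old.RankTwoDuality
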