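import Pool.Agent.Lib.MP_a57f33_nt.TwoTerm

/-!
Every element of `dm₀` satisfies the two-term relation
`[x₀, ψ(x₀, x₁)] + [x₁ - x₀, ψ(x₁ - x₀, x₁)] = 0`.
-/

namespace Pool.Agent.MP_a57f33_nt.Old.TwoTerm

open Pool.Agent.MP_a57f33_nt

/-- The letters `x₀` and `x₁` of `ℚ⟨X⟩`. -/
noncomputable def x (b : Bool) : QX := FreeAlgebra.ι ℚ b

/-- The substitution `ψ ↦ ψ(a, b)`: the algebra endomorphism of `ℚ⟨X⟩` with `x₀ ↦ a`,
`x₁ ↦ b`. -/
noncomputable def subst (a b : QX) : QX →ₐ[ℚ] QX :=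
  FreeAlgebra.lift ℚ fun c : Bool => if c then b else a

/-- The commutator. -/
noncomputable def br (a b : QX) : QX := a * b - b * a

/-- The two-term relation on `dm₀`. -/
theorem result : ∀ ψ ∈ dm0,
    br (x false) ψ + br (x true - x false) (subst (x true - x false) (x true) ψ) = 0 :=
  fun _ h => two_term h

end Pool.Agent.MP_a57f33_nt.Old.TwoTerm
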